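import Pool.Agent.R928.DP.Tree

/-! The kernel of simple random walk on the integers. -/

set_option autoImplicit false
set_option linter.all false

namespace Pool.Agent.R928.DP

/-- `P(S_n = k)` for simple random walk on the integers -/
noncomputable def pk : ℕ → ℤ → ℝ
  | 0, k => if k = 0 then 1 else 0
  | n + 1, k => 1 / 2 * pk n (k - 1) + 1 / 2 * pk n (k + 1)

theorem pk_succ (n : ℕ) (k : ℤ) : pk (n + 1) k = 1 / 2 * pk n (k - 1) + 1 / 2 * pk n (k + 1) := rfl

theorem pk_nonneg (n : ℕ) : ∀ k, 0 ≤ pk n k := by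
  induction n with
  | zero => intro k; unfold pk; split_ifs <;> norm_num
  | succ n ih =>
    intro k
    unfold pk
    have := ih (k - 1)
    have := ih (k + 1)
    positivity

theorem pk_even (n : ℕ) : ∀ k, pk n (-k) = pk n k := by
  induction n with
  | zero => intro k; unfold pk; simp
  | succ n ih =>
    intro k
    unfold pk
    have h1 : -k - 1 = -(k + 1) := by ring
    have h2 : -k + 1 = -(k - 1) := by ring
    rw [h1, h2, ih, ih]
    ring

theorem pk_small (n : ℕ) : ∀ k : ℤ, k < -n → pk n k = 0 := by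
  induction n with
  | zero => intro k hk; unfold pk; rw [if_neg (by push_cast at hk; omega)]
  | succ n ih =>
    intro k hk
    unfold pk
    push_cast at hk
    rw [ih _ (by omega), ih _ (by omega)]
    norm_num

theorem pk_parity (n : ℕ) : ∀ k : ℤ, (k + n) % 2 = 1 → pk n k = 0 := by
  induction n with
  | zero => intro k hk; unfold pk; rw [if_neg (by rintro rfl; simp at hk)]
  | succ n ih =>
    intro k hk
    unfold pk
    push_cast at hk
    rw [ih _ (by omega), ih _ (by omega)]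
    norm_num

theorem pk_formula (n : ℕ) : ∀ j : ℕ, pk n (2 * j - n) = (n.choose j : ℝ) / 2 ^ n := by
  induction n with
  | zero =>
    intro j
    unfold pk
    rcases j with _ | j
    · simp
    · rw [if_neg (by push_cast; omega)]
      simp
  | succ n ih =>
    intro j
    unfold pk
    rcases j with _ | j
    · have h1 : (2 * ((0 : ℕ) : ℤ) - ((n + 1 : ℕ) : ℤ) - 1) < -(n : ℤ) := by push_cast; omega
      have h2 : (2 * ((0 : ℕ) : ℤ) - ((n + 1 : ℕ) : ℤ) + 1) = 2 * ((0 : ℕ) : ℤ) - n := by push_cast; ring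
      rw [pk_small n _ h1, h2, ih 0]
      simp
      rw [pow_succ]
      field_simp
    · have h1 : (2 * ((j + 1 : ℕ) : ℤ) - ((n + 1 : ℕ) : ℤ) - 1) = 2 * (j : ℤ) - n := by push_cast; ring
      have h2 : (2 * ((j + 1 : ℕ) : ℤ) - ((n + 1 : ℕ) : ℤ) + 1) = 2 * ((j + 1 : ℕ) : ℤ) - n := by push_cast; ring
      rw [h1, h2, ih j, ih (j + 1), Nat.choose_succ_succ, pow_succ]
      push_cast
      field_simp

theorem pk_le_choose (n : ℕ) (k : ℤ) : pk n k ≤ (n.choose (n / 2) : ℝ) / 2 ^ n := by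
  have h0 : 0 ≤ (n.choose (n / 2) : ℝ) / 2 ^ n := by positivity
  by_cases h1 : k < -n
  · rw [pk_small n k h1]; exact h0
  · by_cases h2 : (k + n) % 2 = 1
    · rw [pk_parity n k h2]; exact h0
    · have h3 : 0 ≤ (k + n) / 2 := by omega
      obtain ⟨j, hj⟩ := Int.eq_ofNat_of_zero_le h3
      have h4 : k = 2 * (j : ℤ) - n := by omega
      rw [h4, pk_formula]
      apply div_le_div_of_nonneg_right _ (by positivity)
      exact_mod_cast Nat.choose_le_middle j n

/-- `C(2m, m) / 4^m` -/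
noncomputable def cb (m : ℕ) : ℝ := (Nat.centralBinom m : ℝ) / 4 ^ m

theorem cb_pos (m : ℕ) : 0 < cb m := by
  unfold cb
  have : 0 < Nat.centralBinom m := Nat.centralBinom_pos m
  positivity

theorem cb_succ (m : ℕ) : cb (m + 1) = cb m * ((2 * m + 1) / (2 * m + 2)) := by
  have h := Nat.succ_mul_centralBinom_succ m
  have h' : ((m : ℝ) + 1) * (Nat.centralBinom (m + 1) : ℝ) = 2 * (2 * m + 1) * (Nat.centralBinom m : ℝ) := by
    exact_mod_cast h
  unfold cb
  have h1 : ((m : ℝ) + 1) ≠ 0 := by positivity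
  have h2 : (Nat.centralBinom (m + 1) : ℝ) = 2 * (2 * m + 1) * (Nat.centralBinom m : ℝ) / (m + 1) := by
    field_simp
    linarith
  rw [h2, pow_succ]
  field_simp
  ring

theorem cb_upper (m : ℕ) : cb m ^ 2 * (2 * m + 1) ≤ 1 := by
  induction m with
  | zero => simp [cb]
  | succ m ih =>
    rw [cb_succ]
    have h1 : ((2 * (m : ℝ) + 1) / (2 * m + 2)) ^ 2 * (2 * ((m + 1 : ℕ) : ℝ) + 1) ≤ 2 * m + 1 := by
      rw [div_pow, div_mul_eq_mul_div, div_le_iff₀ (by positivity)]
      push_cast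
      nlinarith [sq_nonneg ((m : ℝ))]
    calc (cb m * ((2 * (m : ℝ) + 1) / (2 * m + 2))) ^ 2 * (2 * ((m + 1 : ℕ) : ℝ) + 1)
        = cb m ^ 2 * (((2 * (m : ℝ) + 1) / (2 * m + 2)) ^ 2 * (2 * ((m + 1 : ℕ) : ℝ) + 1)) := by ring
      _ ≤ cb m ^ 2 * (2 * m + 1) := by gcongr
      _ ≤ 1 := ih

theorem cb_lower (m : ℕ) : 1 ≤ cb m ^ 2 * (4 * m + 1) := by
  induction m with
  | zero => simp [cb]
  | succ m ih =>
    rw [cb_succ]
    have h1 : 4 * (m : ℝ) + 1 ≤ ((2 * (m : ℝ) + 1) / (2 * m + 2)) ^ 2 * (4 * ((m + 1 : ℕ) : ℝ) + 1) := by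
      rw [div_pow, div_mul_eq_mul_div, le_div_iff₀ (by positivity)]
      push_cast
      nlinarith [sq_nonneg ((m : ℝ))]
    calc (1 : ℝ) ≤ cb m ^ 2 * (4 * m + 1) := ih
      _ ≤ cb m ^ 2 * (((2 * (m : ℝ) + 1) / (2 * m + 2)) ^ 2 * (4 * ((m + 1 : ℕ) : ℝ) + 1)) := by gcongr
      _ = _ := by ring

theorem pk_even_le (m : ℕ) (k : ℤ) : pk (2 * m) k ≤ cb m := by
  have h := pk_le_choose (2 * m) k
  have h1 : 2 * m / 2 = m := by omega
  rw [h1] at h
  unfold cb Nat.centralBinom
  have h2 : (4 : ℝ) ^ m = 2 ^ (2 * m) := by rw [pow_mul]; norm_num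
  rw [h2]
  exact h

theorem pk_zero (m : ℕ) : pk (2 * m) 0 = cb m := by
  have h := pk_formula (2 * m) m
  have h1 : (2 * (m : ℤ) - ((2 * m : ℕ) : ℤ)) = 0 := by push_cast; ring
  rw [h1] at h
  rw [h]
  unfold cb Nat.centralBinom
  have h2 : (4 : ℝ) ^ m = 2 ^ (2 * m) := by rw [pow_mul]; norm_num
  rw [h2]

theorem cb_le (m : ℕ) : cb m ≤ Real.sqrt (1 / (2 * m + 1)) := by
  apply Real.le_sqrt_of_sq_le
  rw [le_div_iff₀ (by positivity)]
  exact cb_upper m

/-- uniform bound -/
theorem pk_le (n : ℕ) (k : ℤ) : pk n k ≤ Real.sqrt (2 / (n + 1)) := by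
  obtain ⟨m, hm | hm⟩ := Nat.even_or_odd' n
  · rw [hm]
    refine (pk_even_le m k).trans ((cb_le m).trans (Real.sqrt_le_sqrt ?_))
    push_cast
    apply div_le_div_of_nonneg_right (by norm_num) (by positivity)
  · rw [hm]
    unfold pk
    have h1 := pk_even_le m (k - 1)
    have h2 := pk_even_le m (k + 1)
    have h3 : cb m ≤ Real.sqrt (2 / (((2 * m + 1 : ℕ) : ℝ) + 1)) := by
      refine (cb_le m).trans (Real.sqrt_le_sqrt ?_)
      push_cast
      rw [div_le_div_iff₀ (by positivity) (by positivity)]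
      linarith
    linarith

/-! ### levels of the tree walk -/

/-- indicator of a level -/
noncomputable def lv (j : ℕ) : List Bool → ℝ := fun x => if x.length = j then 1 else 0

theorem lv_nonneg (j : ℕ) (x : List Bool) : 0 ≤ lv j x := by unfold lv; split_ifs <;> norm_num

theorem lv_bound (j n : ℕ) : ∀ x, opT^[n] (lv j) x ≤ pk n (j - x.length) + pk n (j + x.length) := by
  induction n with
  | zero =>
    intro x
    simp only [Function.iterate_zero, id_eq]
    unfold lv pk
    by_cases h : x.length = j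
    · rw [if_pos h, if_pos (by rw [h]; ring)]
      split_ifs <;> norm_num
    · rw [if_neg h]
      split_ifs <;> norm_num
  | succ n ih =>
    intro x
    rw [Function.iterate_succ_apply']
    rcases x with _ | ⟨b, x⟩
    · rw [opT_nil]
      have h1 := ih [false]
      have h2 := ih [true]
      have hl : (([] : List Bool).length : ℤ) = 0 := rfl
      have hl1 : (([false] : List Bool).length : ℤ) = 1 := rfl
      have hl2 : (([true] : List Bool).length : ℤ) = 1 := rfl
      rw [hl1] at h1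
      rw [hl2] at h2
      rw [hl, pk_succ, pk_succ, sub_zero, add_zero]
      linarith
    · rw [opT_cons]
      have h0 := ih x
      have h1 := ih (false :: b :: x)
      have h2 := ih (true :: b :: x)
      simp only [List.length_cons] at h1 h2 ⊢
      rw [pk_succ, pk_succ]
      push_cast at h1 h2 ⊢
      have e1 : (j : ℤ) - ((x.length : ℤ) + 1 + 1) = (j : ℤ) - (x.length + 1) - 1 := by ring
      have e2 : (j : ℤ) + ((x.length : ℤ) + 1 + 1) = (j : ℤ) + (x.length + 1) + 1 := by ring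
      have e3 : (j : ℤ) - (x.length + 1) + 1 = (j : ℤ) - x.length := by ring
      have e4 : (j : ℤ) + (x.length + 1) - 1 = (j : ℤ) + x.length := by ring
      rw [e1, e2] at h1 h2
      rw [e3, e4]
      linarith

theorem lv_le (j n : ℕ) (x : List Bool) : opT^[n] (lv j) x ≤ 2 * Real.sqrt (2 / (n + 1)) := by
  have := lv_bound j n x
  have h1 := pk_le n (j - x.length)
  have h2 := pk_le n (j + x.length)
  linarith

theorem root_prob (n : ℕ) : ∀ x, opT^[n] (dT []) x = pk n x.length := by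
  induction n with
  | zero =>
    intro x
    simp only [Function.iterate_zero, id_eq]
    unfold dT pk
    rcases x with _ | ⟨b, x⟩
    · simp
    · rw [if_neg (by simp), if_neg (by simp; omega)]
  | succ n ih =>
    intro x
    rw [Function.iterate_succ_apply']
    rcases x with _ | ⟨b, x⟩
    · rw [opT_nil, ih, ih, pk_succ]
      have hl : (([] : List Bool).length : ℤ) = 0 := rfl
      have hl1 : (([false] : List Bool).length : ℤ) = 1 := rfl
      have hl2 : (([true] : List Bool).length : ℤ) = 1 := rfl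
      rw [hl, hl1, hl2]
      have e1 : (0 : ℤ) - 1 = -1 := by ring
      have e2 : (0 : ℤ) + 1 = 1 := by ring
      rw [e1, e2, pk_even]
    · rw [opT_cons, ih, ih, ih, pk_succ]
      simp only [List.length_cons]
      push_cast
      have e1 : (x.length : ℤ) + 1 - 1 = x.length := by ring
      rw [e1]
      ring

/-! ### lazy walk on the integers -/

noncomputable def opB (f : ℤ → ℝ) (z : ℤ) : ℝ := 1 / 2 * f z + 1 / 4 * f (z + 1) + 1 / 4 * f (z - 1)

noncomputable def dB (w : ℤ) : ℤ → ℝ := fun z => if z = w then 1 else 0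

theorem dB_nonneg (w z : ℤ) : 0 ≤ dB w z := by unfold dB; split_ifs <;> norm_num

theorem opB_nonneg {f : ℤ → ℝ} (hf : ∀ x, 0 ≤ f x) (x : ℤ) : 0 ≤ opB f x := by
  unfold opB
  have := hf x; have := hf (x + 1); have := hf (x - 1); positivity

theorem opBn_nonneg {f : ℤ → ℝ} (hf : ∀ x, 0 ≤ f x) (n : ℕ) : ∀ x, 0 ≤ opB^[n] f x := by
  induction n with
  | zero => exact hf
  | succ n ih =>
    intro x
    rw [Function.iterate_succ_apply']
    exact opB_nonneg ih x

theorem opB_pk (n : ℕ) (w : ℤ) : ∀ z, opB^[n] (dB w) z = pk (2 * n) (2 * (w - z)) := by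
  induction n with
  | zero =>
    intro z
    simp only [Function.iterate_zero, id_eq, mul_zero]
    unfold dB pk
    by_cases h : z = w
    · rw [if_pos h, if_pos (by rw [h]; ring)]
    · rw [if_neg h, if_neg (by omega)]
  | succ n ih =>
    intro z
    rw [Function.iterate_succ_apply']
    have h0 : opB (opB^[n] (dB w)) z = 1 / 2 * opB^[n] (dB w) z + 1 / 4 * opB^[n] (dB w) (z + 1) +
        1 / 4 * opB^[n] (dB w) (z - 1) := rfl
    rw [h0, ih, ih, ih]
    have h2 : 2 * (n + 1) = (2 * n + 1) + 1 := by ring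
    rw [h2, pk_succ, pk_succ, pk_succ]
    have e1 : 2 * (w - z) - 1 - 1 = 2 * (w - (z + 1)) := by ring
    have e2 : 2 * (w - z) - 1 + 1 = 2 * (w - z) := by ring
    have e3 : 2 * (w - z) + 1 - 1 = 2 * (w - z) := by ring
    have e4 : 2 * (w - z) + 1 + 1 = 2 * (w - (z - 1)) := by ring
    rw [e1, e2, e3, e4]
    ring

theorem opB_le (n : ℕ) (w z : ℤ) : opB^[n] (dB w) z ≤ Real.sqrt (2 / (n + 1)) := by
  rw [opB_pk]
  refine (pk_even_le n _).trans ((cb_le n).trans (Real.sqrt_le_sqrt ?_))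
  rw [div_le_div_iff₀ (by positivity) (by positivity)]
  have : (0 : ℝ) ≤ n := Nat.cast_nonneg n
  linarith

/-! ### Abel summation -/

theorem abel (a : ℕ → ℝ) (N : ℕ) : ∑ n ∈ Finset.range N, a n / (n + 1) =
    (∑ k ∈ Finset.range N, a k) / (N + 1) + ∑ n ∈ Finset.range N, (∑ k ∈ Finset.range (n + 1), a k) / ((n + 1) * (n + 2)) := by
  induction N with
  | zero => simp
  | succ N ih =>
    rw [Finset.sum_range_succ, ih, Finset.sum_range_succ (fun n => (∑ k ∈ Finset.range (n + 1), a k) / (((n : ℝ) + 1) * (n + 2)))]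
    rw [Finset.sum_range_succ a N]
    have h1 : ((N : ℝ) + 1) ≠ 0 := by positivity
    have h2 : ((N : ℝ) + 2) ≠ 0 := by positivity
    have h3 : ((N : ℝ) + 1 + 1) ≠ 0 := by positivity
    push_cast
    field_simp
    ring

/-- the constant -/
noncomputable def SS : ℝ := ∑' n : ℕ, 1 / ((n : ℝ) + 1) ^ (3 / 2 : ℝ)

theorem SS_summable : Summable fun n : ℕ => 1 / ((n : ℝ) + 1) ^ (3 / 2 : ℝ) := by
  have h := (Real.summable_one_div_nat_rpow (p := 3 / 2)).mpr (by norm_num)
  have h2 := (summable_nat_add_iff 1).mpr h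
  refine h2.congr fun n => ?_
  push_cast
  rfl

theorem visits (x : List Bool) (N : ℕ) :
    ∑ n ∈ Finset.range N, opT^[n] (ind (bits x)) x / (n + 1) ≤ 4 + 4 * SS := by
  rw [abel (fun n => opT^[n] (ind (bits x)) x)]
  have hV : ∀ n, ∑ k ∈ Finset.range n, opT^[k] (ind (bits x)) x ≤ 4 * Real.sqrt n := by
    intro n
    have := VV_bound (bits x) n x
    rw [bits_ds] at this
    unfold VV sq at this
    simpa using this
  have h1 : (∑ k ∈ Finset.range N, opT^[k] (ind (bits x)) x) / ((N : ℝ) + 1) ≤ 4 := by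
    rw [div_le_iff₀ (by positivity)]
    refine (hV N).trans ?_
    have h2 : Real.sqrt N ≤ N + 1 := by
      rw [Real.sqrt_le_left (by positivity)]
      have : (0 : ℝ) ≤ N := Nat.cast_nonneg N
      nlinarith
    linarith
  have h2 : ∑ n ∈ Finset.range N, (∑ k ∈ Finset.range (n + 1), opT^[k] (ind (bits x)) x) / (((n : ℝ) + 1) * (n + 2)) ≤
      ∑ n ∈ Finset.range N, 4 * (1 / ((n : ℝ) + 1) ^ (3 / 2 : ℝ)) := by
    apply Finset.sum_le_sum
    intro n _
    have hn : (0 : ℝ) < (n : ℝ) + 1 := by positivity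
    have h3 := hV (n + 1)
    push_cast at h3
    have h4 : ((n : ℝ) + 1) ^ (3 / 2 : ℝ) = (n + 1) * Real.sqrt (n + 1) := by
      rw [Real.sqrt_eq_rpow, ← Real.rpow_one_add' hn.le (by norm_num)]
      norm_num
    have hs : 0 < Real.sqrt ((n : ℝ) + 1) := Real.sqrt_pos.mpr hn
    have h5 := Real.mul_self_sqrt hn.le
    rw [h4, div_le_iff₀ (by positivity)]
    refine h3.trans ?_
    have h6 : 4 * (1 / (((n : ℝ) + 1) * Real.sqrt (n + 1))) * ((n + 1) * (n + 2)) = 4 * ((n + 2) / Real.sqrt (n + 1)) := by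
      field_simp
    rw [h6]
    have h7 : Real.sqrt ((n : ℝ) + 1) ≤ (n + 2) / Real.sqrt (n + 1) := by
      rw [le_div_iff₀ hs, h5]
      linarith
    linarith
  have h3 : ∑ n ∈ Finset.range N, 4 * (1 / ((n : ℝ) + 1) ^ (3 / 2 : ℝ)) ≤ 4 * SS := by
    rw [← Finset.mul_sum]
    apply mul_le_mul_of_nonneg_left _ (by norm_num)
    exact SS_summable.sum_le_tsum _ fun i _ => by positivity
  linarith

end Pool.Agent.R928.DP
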