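import Pool.Agent.R928.DP.Gen
import Pool.Agent.R928.DP.Pas

/-! The chain on (binary tree) x (integers). -/

set_option autoImplicit false
set_option linter.all false

namespace Pool.Agent.R928.DP

open MeasureTheory ProbabilityTheory
open scoped ENNReal NNReal

/-- transition matrix on the binary tree -/
noncomputable def PT : List Bool → List Bool → ℝ≥0
  | [], y => (if y = [false] then 1 / 2 else 0) + (if y = [true] then 1 / 2 else 0)
  | b :: x, y => (if y = x then 1 / 2 else 0) + (if y = false :: b :: x then 1 / 4 else 0) +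
      (if y = true :: b :: x then 1 / 4 else 0)

theorem PT_nil (y : List Bool) : PT [] y = (if y = [false] then 1 / 2 else 0) + (if y = [true] then 1 / 2 else 0) := rfl

theorem PT_cons (b : Bool) (x y : List Bool) : PT (b :: x) y = (if y = x then 1 / 2 else 0) +
    (if y = false :: b :: x then 1 / 4 else 0) + (if y = true :: b :: x then 1 / 4 else 0) := rfl

/-- lazy walk on the integers -/
noncomputable def PB (z w : ℤ) : ℝ≥0 :=
  (if w = z then 1 / 2 else 0) + (if w = z + 1 then 1 / 4 else 0) + (if w = z - 1 then 1 / 4 else 0)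

/-- product chain -/
noncomputable def PP (u v : List Bool × ℤ) : ℝ≥0 := PT u.1 v.1 * PB u.2 v.2

theorem ts {α : Type} [DecidableEq α] (a : α) (c : ℝ≥0) (g : α → ℝ≥0∞) :
    ∑' y, (((if y = a then c else 0 : ℝ≥0)) : ℝ≥0∞) * g y = c * g a := by
  rw [tsum_eq_single a]
  · simp
  · intro y hy
    simp [hy]

theorem half : ((1 / 2 : ℝ≥0) : ℝ≥0∞) = ENNReal.ofReal (1 / 2) := by
  rw [ENNReal.ofReal]
  congr 1
  apply NNReal.eq
  rw [Real.coe_toNNReal _ (by norm_num)]
  norm_num

theorem quart : ((1 / 4 : ℝ≥0) : ℝ≥0∞) = ENNReal.ofReal (1 / 4) := by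
  rw [ENNReal.ofReal]
  congr 1
  apply NNReal.eq
  rw [Real.coe_toNNReal _ (by norm_num)]
  norm_num

theorem linkT (f : List Bool → ℝ) (hf : ∀ x, 0 ≤ f x) (x : List Bool) :
    ∑' y, (PT x y : ℝ≥0∞) * ENNReal.ofReal (f y) = ENNReal.ofReal (opT f x) := by
  rcases x with _ | ⟨b, x⟩
  · simp only [PT, ENNReal.coe_add, add_mul, ENNReal.tsum_add]
    rw [ts, ts, half, opT_nil, ENNReal.ofReal_add (by have := hf [false]; positivity) (by have := hf [true]; positivity),
      ENNReal.ofReal_mul (by norm_num), ENNReal.ofReal_mul (by norm_num)]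
  · simp only [PT, ENNReal.coe_add, add_mul, ENNReal.tsum_add]
    rw [ts, ts, ts, half, quart, opT_cons]
    have h1 := hf x
    have h2 := hf (false :: b :: x)
    have h3 := hf (true :: b :: x)
    rw [ENNReal.ofReal_add (by positivity) (by positivity), ENNReal.ofReal_add (by positivity) (by positivity),
      ENNReal.ofReal_mul (by norm_num), ENNReal.ofReal_mul (by norm_num), ENNReal.ofReal_mul (by norm_num)]

theorem linkB (f : ℤ → ℝ) (hf : ∀ x, 0 ≤ f x) (x : ℤ) :
    ∑' y, (PB x y : ℝ≥0∞) * ENNReal.ofReal (f y) = ENNReal.ofReal (opB f x) := by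
  simp only [PB, ENNReal.coe_add, add_mul, ENNReal.tsum_add]
  rw [ts, ts, ts, half, quart]
  unfold opB
  have h1 := hf x
  have h2 := hf (x + 1)
  have h3 := hf (x - 1)
  rw [ENNReal.ofReal_add (by positivity) (by positivity), ENNReal.ofReal_add (by positivity) (by positivity),
    ENNReal.ofReal_mul (by norm_num), ENNReal.ofReal_mul (by norm_num), ENNReal.ofReal_mul (by norm_num)]

theorem pwT (n : ℕ) (y : List Bool) : ∀ x, pw PT n x y = ENNReal.ofReal (opT^[n] (dT y) x) := by
  induction n with
  | zero =>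
    intro x
    simp only [pw, Function.iterate_zero, id_eq]
    unfold dT
    split_ifs <;> simp
  | succ n ih =>
    intro x
    simp only [pw, ih]
    rw [linkT _ (opTn_nonneg (dT_nonneg y) n), Function.iterate_succ_apply']

theorem pwB (n : ℕ) (y : ℤ) : ∀ x, pw PB n x y = ENNReal.ofReal (opB^[n] (dB y) x) := by
  induction n with
  | zero =>
    intro x
    simp only [pw, Function.iterate_zero, id_eq]
    unfold dB
    split_ifs <;> simp
  | succ n ih =>
    intro x
    simp only [pw, ih]
    rw [linkB _ (opBn_nonneg (dB_nonneg y) n), Function.iterate_succ_apply']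

theorem pwP (n : ℕ) : ∀ u v : List Bool × ℤ, pw PP n u v = pw PT n u.1 v.1 * pw PB n u.2 v.2 := by
  classical
  induction n with
  | zero =>
    rintro ⟨x, z⟩ ⟨y, w⟩
    simp only [pw]
    by_cases h1 : x = y
    · by_cases h2 : z = w
      · simp [h1, h2]
      · simp [h1, h2]
    · simp [h1]
  | succ n ih =>
    intro u v
    simp only [pw, ih, PP]
    have h1 : (∑' p : List Bool × ℤ, (((PT u.1 p.1 * PB u.2 p.2 : ℝ≥0)) : ℝ≥0∞) * (pw PT n p.1 v.1 * pw PB n p.2 v.2)) =
        ∑' (a : List Bool) (b : ℤ), (((PT u.1 a * PB u.2 b : ℝ≥0)) : ℝ≥0∞) * (pw PT n a v.1 * pw PB n b v.2) :=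
      ENNReal.tsum_prod (f := fun a b => (((PT u.1 a * PB u.2 b : ℝ≥0)) : ℝ≥0∞) * (pw PT n a v.1 * pw PB n b v.2))
    rw [h1, ← ENNReal.tsum_mul_right]
    congr 1
    funext a
    rw [← ENNReal.tsum_mul_left]
    congr 1
    funext b
    push_cast
    ring

theorem pw_sum {V : Type} (P : V → V → ℝ≥0) (n : ℕ) (x : V) (g : V → ℝ≥0∞) :
    ∑' y, pw P (n + 1) x y * g y = ∑' z, (P x z : ℝ≥0∞) * ∑' y, pw P n z y * g y := by
  simp only [pw, ← ENNReal.tsum_mul_right, ← ENNReal.tsum_mul_left]
  rw [ENNReal.tsum_comm]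
  congr 1
  funext z
  congr 1
  funext y
  ring

theorem pw_zero_sum {V : Type} (P : V → V → ℝ≥0) (x : V) (g : V → ℝ≥0∞) : ∑' y, pw P 0 x y * g y = g x := by
  classical
  simp only [pw]
  rw [tsum_eq_single x]
  · simp
  · intro y hy
    simp [hy.symm]

theorem sumT (n : ℕ) (f : List Bool → ℝ) (hf : ∀ x, 0 ≤ f x) : ∀ x,
    ∑' y, pw PT n x y * ENNReal.ofReal (f y) = ENNReal.ofReal (opT^[n] f x) := by
  induction n with
  | zero => intro x; rw [pw_zero_sum]; rfl
  | succ n ih =>
    intro x
    rw [pw_sum, Function.iterate_succ_apply', ← linkT _ (opTn_nonneg hf n)]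
    congr 1
    funext z
    rw [ih]

theorem rowB (z : ℤ) : ∑' w, (PB z w : ℝ≥0∞) = 1 := by
  have h := linkB (fun _ => 1) (fun _ => zero_le_one) z
  unfold opB at h
  simp only [ENNReal.ofReal_one, mul_one] at h
  rw [h]
  norm_num

theorem rowT (x : List Bool) : ∑' w, (PT x w : ℝ≥0∞) = 1 := by
  have h := linkT (fun _ => 1) (fun _ => zero_le_one) x
  simp only [ENNReal.ofReal_one, mul_one] at h
  rw [h]
  rcases x with _ | ⟨b, x⟩
  · rw [opT_nil]; norm_num
  · rw [opT_cons]; norm_num

theorem rowP (u : List Bool × ℤ) : ∑' v, (PP u v : ℝ≥0∞) = 1 := by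
  unfold PP
  have h1 : (∑' p : List Bool × ℤ, (((PT u.1 p.1 * PB u.2 p.2 : ℝ≥0)) : ℝ≥0∞)) =
      ∑' (a : List Bool) (b : ℤ), (((PT u.1 a * PB u.2 b : ℝ≥0)) : ℝ≥0∞) :=
    ENNReal.tsum_prod (f := fun a b => (((PT u.1 a * PB u.2 b : ℝ≥0)) : ℝ≥0∞))
  rw [h1]
  simp only [ENNReal.coe_mul, ENNReal.tsum_mul_left, rowB, mul_one, rowT]

theorem pw_row {V : Type} (P : V → V → ℝ≥0) (hP : ∀ x, ∑' y, (P x y : ℝ≥0∞) = 1) (n : ℕ) : ∀ x, ∑' y, pw P n x y = 1 := by
  induction n with
  | zero =>
    intro x
    have := pw_zero_sum P x (fun _ => 1)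
    simpa using this
  | succ n ih =>
    intro x
    have := pw_sum P n x (fun _ => 1)
    simp only [mul_one, ih] at this
    rw [this, hP]

/-- The bound for the meeting probabilities. -/
theorem KK_PP (n : ℕ) (x : List Bool) (z : ℤ) :
    KK PP n (x, z) (x, z) ≤ ENNReal.ofReal (4 * (opT^[n] (ind (bits x)) x / (n + 1))) := by
  classical
  set r : ℝ := Real.sqrt (2 / (n + 1)) with hr
  have hr0 : 0 ≤ r := Real.sqrt_nonneg _
  have hr2 : r * r = 2 / (n + 1) := Real.mul_self_sqrt (by positivity)
  have hI := opTn_nonneg (ind_nonneg (bits x)) n x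
  -- product structure
  have h1 : KK PP n (x, z) (x, z) = (∑' y, pw PT n x y * pw PT n x y) * ∑' w, pw PB n z w * pw PB n z w := by
    unfold KK
    simp only [pwP]
    have h : (∑' p : List Bool × ℤ, pw PT n x p.1 * pw PB n z p.2 * (pw PT n x p.1 * pw PB n z p.2)) =
        ∑' (a : List Bool) (b : ℤ), pw PT n x a * pw PB n z b * (pw PT n x a * pw PB n z b) :=
      ENNReal.tsum_prod (f := fun a b => pw PT n x a * pw PB n z b * (pw PT n x a * pw PB n z b))
    rw [h, ← ENNReal.tsum_mul_right]
    congr 1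
    funext a
    rw [← ENNReal.tsum_mul_left]
    congr 1
    funext b
    ring
  have h2 : ∑' w, pw PB n z w * pw PB n z w ≤ ENNReal.ofReal r := by
    calc ∑' w, pw PB n z w * pw PB n z w ≤ ∑' w, pw PB n z w * ENNReal.ofReal r := by
          refine ENNReal.tsum_le_tsum fun w => ?_
          gcongr
          rw [pwB]
          exact ENNReal.ofReal_le_ofReal (opB_le n w z)
      _ = ENNReal.ofReal r := by rw [ENNReal.tsum_mul_right, pw_row PB rowB, one_mul]
  have h3 : ∑' y, pw PT n x y * pw PT n x y ≤ ENNReal.ofReal (opT^[n] (ind (bits x)) x) * ENNReal.ofReal (2 * r) := by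
    calc ∑' y, pw PT n x y * pw PT n x y
        ≤ ∑' y, pw PT n x y * pw PT n x (ry (bits x) y.length) := by
          refine ENNReal.tsum_le_tsum fun y => ?_
          gcongr
          rw [pwT, pwT]
          exact ENNReal.ofReal_le_ofReal (mono_ray n x y)
      _ = ∑' y : List Bool, ∑' j : ℕ, pw PT n x (ry (bits x) j) * (pw PT n x y * ENNReal.ofReal (lv j y)) := by
          congr 1
          funext y
          rw [tsum_eq_single y.length]
          · unfold lv
            rw [if_pos rfl, ENNReal.ofReal_one, mul_one, mul_comm]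
          · intro j hj
            unfold lv
            rw [if_neg (Ne.symm hj), ENNReal.ofReal_zero, mul_zero, mul_zero]
      _ = ∑' j : ℕ, pw PT n x (ry (bits x) j) * ENNReal.ofReal (opT^[n] (lv j) x) := by
          rw [ENNReal.tsum_comm]
          congr 1
          funext j
          rw [ENNReal.tsum_mul_left, sumT n (lv j) (lv_nonneg j)]
      _ ≤ ∑' j : ℕ, pw PT n x (ry (bits x) j) * ENNReal.ofReal (2 * r) := by
          refine ENNReal.tsum_le_tsum fun j => ?_
          gcongr
          exact lv_le j n x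
      _ = (∑' j : ℕ, pw PT n x (ry (bits x) j)) * ENNReal.ofReal (2 * r) := ENNReal.tsum_mul_right
      _ ≤ ENNReal.ofReal (opT^[n] (ind (bits x)) x) * ENNReal.ofReal (2 * r) := by
          gcongr
          rw [← sumT n (ind (bits x)) (ind_nonneg _)]
          have hinj : Function.Injective (ry (bits x)) := by
            intro a b hab
            rw [← ry_length (bits x) a, ← ry_length (bits x) b, hab]
          have h4 := ENNReal.tsum_comp_le_tsum_of_injective hinj (fun y => pw PT n x y * ENNReal.ofReal (ind (bits x) y))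
          refine le_trans (le_of_eq ?_) h4
          congr 1
          funext j
          have : ind (bits x) (ry (bits x) j) = 1 := by unfold ind; rw [if_pos (ry_ds _ _)]
          rw [this, ENNReal.ofReal_one, mul_one]
  rw [h1]
  calc (∑' y, pw PT n x y * pw PT n x y) * ∑' w, pw PB n z w * pw PB n z w
      ≤ (ENNReal.ofReal (opT^[n] (ind (bits x)) x) * ENNReal.ofReal (2 * r)) * ENNReal.ofReal r := mul_le_mul' h3 h2
    _ = ENNReal.ofReal (4 * (opT^[n] (ind (bits x)) x / (n + 1))) := by
        rw [← ENNReal.ofReal_mul hI, ← ENNReal.ofReal_mul (by positivity)]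
        congr 1
        have : opT^[n] (ind (bits x)) x * (2 * r) * r = opT^[n] (ind (bits x)) x * 2 * (r * r) := by ring
        rw [this, hr2]
        ring

theorem SS_nonneg : 0 ≤ SS := tsum_nonneg fun n => by positivity

theorem kappa (u : List Bool × ℤ) (n : ℕ) :
    ∑ i ∈ Finset.range n, KK PP (i + 1) u u ≤ ENNReal.ofReal (16 + 16 * SS) := by
  obtain ⟨x, z⟩ := u
  have hnn : ∀ m : ℕ, 0 ≤ opT^[m] (ind (bits x)) x / ((m : ℝ) + 1) := fun m =>
    div_nonneg (opTn_nonneg (ind_nonneg (bits x)) m x) (by positivity)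
  calc ∑ i ∈ Finset.range n, KK PP (i + 1) (x, z) (x, z)
      ≤ ∑ i ∈ Finset.range n, ENNReal.ofReal (4 * (opT^[i + 1] (ind (bits x)) x / (((i + 1 : ℕ) : ℝ) + 1))) :=
        Finset.sum_le_sum fun i _ => KK_PP (i + 1) x z
    _ = ENNReal.ofReal (∑ i ∈ Finset.range n, 4 * (opT^[i + 1] (ind (bits x)) x / (((i + 1 : ℕ) : ℝ) + 1))) := by
        rw [ENNReal.ofReal_sum_of_nonneg]
        intro i _
        have := hnn (i + 1)
        positivity
    _ ≤ ENNReal.ofReal (16 + 16 * SS) := by
        apply ENNReal.ofReal_le_ofReal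
        rw [← Finset.mul_sum]
        have h1 := visits x (n + 1)
        rw [Finset.sum_range_succ'] at h1
        have h2 := hnn 0
        linarith

theorem pw_mul_le {V : Type} (P : V → V → ℝ≥0) (m n : ℕ) : ∀ x z y, pw P m x z * pw P n z y ≤ pw P (m + n) x y := by
  classical
  induction m with
  | zero =>
    intro x z y
    rw [Nat.zero_add]
    simp only [pw]
    split_ifs with h
    · rw [h, one_mul]
    · rw [zero_mul]; exact bot_le
  | succ m ih =>
    intro x z y
    have : m + 1 + n = (m + n) + 1 := by ring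
    rw [this]
    simp only [pw]
    rw [← ENNReal.tsum_mul_right]
    refine ENNReal.tsum_le_tsum fun w => ?_
    rw [mul_assoc]
    gcongr
    exact ih w z y

theorem rel_trans {V : Type} (P : V → V → ℝ≥0) {x y z : V} (h1 : ∃ n, 0 < pw P n x y) (h2 : ∃ n, 0 < pw P n y z) :
    ∃ n, 0 < pw P n x z := by
  obtain ⟨m, hm⟩ := h1
  obtain ⟨n, hn⟩ := h2
  exact ⟨m + n, lt_of_lt_of_le (ENNReal.mul_pos hm.ne' hn.ne') (pw_mul_le P m n x y z)⟩

theorem rel_step {V : Type} (P : V → V → ℝ≥0) {x y : V} (h : 0 < P x y) : ∃ n, 0 < pw P n x y := by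
  classical
  refine ⟨1, ?_⟩
  simp only [pw]
  refine lt_of_lt_of_le ?_ (ENNReal.le_tsum y)
  simpa using h

theorem rel_refl {V : Type} (P : V → V → ℝ≥0) (x : V) : ∃ n, 0 < pw P n x x := ⟨0, by simp [pw]⟩

theorem PT_down (b : Bool) (x : List Bool) : 0 < PT (b :: x) x := by
  rw [PT_cons, if_pos rfl]
  positivity

theorem PT_up (c : Bool) (x : List Bool) : 0 < PT x (c :: x) := by
  rcases x with _ | ⟨b, x⟩
  · rw [PT_nil]
    cases c <;> simp
  · rw [PT_cons]
    cases c <;> simp

theorem PB_stay (z : ℤ) : 0 < PB z z := by unfold PB; simp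

theorem PB_up (z : ℤ) : 0 < PB z (z + 1) := by
  unfold PB
  rw [if_pos (rfl : z + 1 = z + 1)]
  positivity

theorem PB_down (z : ℤ) : 0 < PB z (z - 1) := by
  unfold PB
  rw [if_pos (rfl : z - 1 = z - 1)]
  positivity

theorem irr (u v : List Bool × ℤ) : ∃ n, 0 < pw PP n u v := by
  have hdown : ∀ (x : List Bool) (z : ℤ), ∃ n, 0 < pw PP n (x, z) ([], z) := by
    intro x z
    induction x with
    | nil => exact rel_refl _ _
    | cons b x ih =>
      exact rel_trans PP (rel_step PP (x := (b :: x, z)) (y := (x, z)) (mul_pos (PT_down b x) (PB_stay z))) ih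
  have hup : ∀ (x : List Bool) (z : ℤ), ∃ n, 0 < pw PP n ([], z) (x, z) := by
    intro x z
    induction x with
    | nil => exact rel_refl _ _
    | cons b x ih =>
      exact rel_trans PP ih (rel_step PP (x := (x, z)) (y := (b :: x, z)) (mul_pos (PT_up b x) (PB_stay z)))
  have hright : ∀ (z : ℤ) (k : ℕ), ∃ n, 0 < pw PP n (([] : List Bool), z) ([], z + k) := by
    intro z k
    induction k with
    | zero =>
      have : z + ((0 : ℕ) : ℤ) = z := by simp
      rw [this]
      exact rel_refl _ _
    | succ k ih =>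
      have e : z + ((k + 1 : ℕ) : ℤ) = z + k + 1 := by push_cast; ring
      rw [e]
      refine rel_trans PP ih ?_
      exact rel_trans PP (rel_step PP (x := ([], z + k)) (y := ([false], z + k + 1)) (mul_pos (PT_up false []) (PB_up _)))
        (hdown [false] _)
  have hleft : ∀ (z : ℤ) (k : ℕ), ∃ n, 0 < pw PP n (([] : List Bool), z) ([], z - k) := by
    intro z k
    induction k with
    | zero =>
      have : z - ((0 : ℕ) : ℤ) = z := by simp
      rw [this]
      exact rel_refl _ _
    | succ k ih =>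
      have e : z - ((k + 1 : ℕ) : ℤ) = z - k - 1 := by push_cast; ring
      rw [e]
      refine rel_trans PP ih ?_
      exact rel_trans PP (rel_step PP (x := ([], z - k)) (y := ([false], z - k - 1)) (mul_pos (PT_up false []) (PB_down _)))
        (hdown [false] _)
  obtain ⟨x, z⟩ := u
  obtain ⟨y, w⟩ := v
  refine rel_trans PP (hdown x z) (rel_trans PP ?_ (hup y w))
  rcases le_total z w with h | h
  · obtain ⟨k, hk⟩ := Int.eq_ofNat_of_zero_le (sub_nonneg.mpr h)
    have : w = z + k := by omega
    rw [this]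
    exact hright z k
  · obtain ⟨k, hk⟩ := Int.eq_ofNat_of_zero_le (sub_nonneg.mpr h)
    have : w = z - k := by omega
    rw [this]
    exact hleft z k

theorem recur : Recurrent PP := by
  have ho : ∑' n, pw PP n (([] : List Bool), (0 : ℤ)) ([], 0) = ∞ := by
    by_contra hcon
    have h1 : ∑' n, pw PP (2 * n) (([] : List Bool), (0 : ℤ)) ([], 0) ≠ ∞ := by
      apply ne_top_of_le_ne_top hcon
      exact ENNReal.tsum_comp_le_tsum_of_injective (f := fun n : ℕ => 2 * n) (fun a b h => by simpa using h)
        (fun n => pw PP n (([] : List Bool), (0 : ℤ)) ([], 0))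
    have h2 := ENNReal.summable_toReal h1
    have h3 : ∀ n, (pw PP (2 * n) (([] : List Bool), (0 : ℤ)) ([], 0)).toReal = cb n * cb (2 * n) := by
      intro n
      rw [pwP, pwT, pwB, root_prob, opB_pk]
      simp only [List.length_nil, sub_self, mul_zero]
      have e1 : pk (2 * n) ((0 : ℕ) : ℤ) = cb n := pk_zero n
      rw [e1, pk_zero (2 * n), ENNReal.toReal_mul, ENNReal.toReal_ofReal (cb_pos _).le, ENNReal.toReal_ofReal (cb_pos _).le]
    simp only [h3] at h2
    have h4 : ∀ n : ℕ, (1 / 8) * (1 / ((n : ℝ) + 1)) ≤ cb n * cb (2 * n) := by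
      intro n
      have a1 := cb_lower n
      have a2 := cb_lower (2 * n)
      push_cast at a2
      have p1 := cb_pos n
      have p2 := cb_pos (2 * n)
      have hn : (0 : ℝ) ≤ n := Nat.cast_nonneg n
      have h5 : 1 ≤ (cb n * cb (2 * n)) ^ 2 * ((4 * n + 1) * (4 * (2 * n) + 1)) := by
        calc (1 : ℝ) = 1 * 1 := by ring
          _ ≤ (cb n ^ 2 * (4 * n + 1)) * (cb (2 * n) ^ 2 * (4 * (2 * n) + 1)) :=
              mul_le_mul a1 a2 zero_le_one (by positivity)
          _ = _ := by ring
      have h6 : (1 : ℝ) ^ 2 ≤ ((cb n * cb (2 * n)) * (8 * (n + 1))) ^ 2 := by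
        have : (cb n * cb (2 * n)) ^ 2 * ((4 * n + 1) * (4 * (2 * n) + 1)) ≤ (cb n * cb (2 * n)) ^ 2 * (8 * (n + 1)) ^ 2 := by
          apply mul_le_mul_of_nonneg_left _ (by positivity)
          nlinarith
        rw [mul_pow]
        linarith
      have h7 := abs_le_of_sq_le_sq' h6 (by positivity)
      have h8 := h7.2
      rw [show (1 / 8 : ℝ) * (1 / ((n : ℝ) + 1)) = 1 / (8 * (n + 1)) by field_simp]
      rw [div_le_iff₀ (by positivity)]
      exact h8
    have h5 : Summable fun n : ℕ => (1 / 8) * (1 / ((n : ℝ) + 1)) :=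
      Summable.of_nonneg_of_le (fun n => by positivity) h4 h2
    have h6 : Summable fun n : ℕ => 1 / ((n : ℝ) + 1) := by
      have := h5.mul_left 8
      refine this.congr fun n => ?_
      ring
    have h7 : Summable fun n : ℕ => 1 / (n : ℝ) := by
      rw [← summable_nat_add_iff 1]
      refine h6.congr fun n => ?_
      push_cast
      rfl
    exact Real.not_summable_one_div_natCast h7
  intro u
  obtain ⟨k, hk⟩ := irr u ([], 0)
  obtain ⟨l, hl⟩ := irr ([], 0) u
  rw [eq_top_iff]
  calc (∞ : ℝ≥0∞) = pw PP k u ([], 0) * ((∑' n, pw PP n (([] : List Bool), (0 : ℤ)) ([], 0)) * pw PP l ([], 0) u) := by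
        rw [ho, ENNReal.top_mul hl.ne', ENNReal.mul_top hk.ne']
    _ = ∑' n, pw PP k u ([], 0) * (pw PP n (([] : List Bool), (0 : ℤ)) ([], 0) * pw PP l ([], 0) u) := by
        rw [← ENNReal.tsum_mul_right, ← ENNReal.tsum_mul_left]
    _ ≤ ∑' n, pw PP (k + (n + l)) u u := by
        refine ENNReal.tsum_le_tsum fun n => ?_
        refine le_trans ?_ (pw_mul_le PP k (n + l) u ([], 0) u)
        gcongr
        exact pw_mul_le PP n l _ _ _
    _ ≤ ∑' n, pw PP n u u :=
        ENNReal.tsum_comp_le_tsum_of_injective (f := fun n : ℕ => k + (n + l)) (fun a b h => by simpa using h)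
          (fun n => pw PP n u u)

/-- reversing measure of the tree walk -/
noncomputable def piT : List Bool → ℝ≥0
  | [] => 1
  | _ :: x => (1 / 2) ^ x.length

theorem piT_pos (x : List Bool) : 0 < piT x := by
  rcases x with _ | ⟨b, x⟩
  · simp [piT]
  · simp [piT]

theorem PT_support (x y : List Bool) (h : PT x y ≠ 0) : (∃ c, y = c :: x) ∨ (∃ c, x = c :: y) := by
  rcases x with _ | ⟨b, x⟩
  · rw [PT_nil] at h
    by_cases h1 : y = [false]
    · exact Or.inl ⟨false, h1⟩
    · by_cases h2 : y = [true]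
      · exact Or.inl ⟨true, h2⟩
      · rw [if_neg h1, if_neg h2] at h
        simp at h
  · rw [PT_cons] at h
    by_cases h1 : y = x
    · exact Or.inr ⟨b, by rw [h1]⟩
    · by_cases h2 : y = false :: b :: x
      · exact Or.inl ⟨false, h2⟩
      · by_cases h3 : y = true :: b :: x
        · exact Or.inl ⟨true, h3⟩
        · rw [if_neg h1, if_neg h2, if_neg h3] at h
          simp at h

theorem cons_ne {c : Bool} {x : List Bool} : x ≠ c :: x := by
  intro h
  have := congrArg List.length h
  simp at this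

theorem cons2_ne {c d : Bool} {x : List Bool} : x ≠ c :: d :: x := by
  intro h
  have := congrArg List.length h
  simp only [List.length_cons] at this
  omega

theorem PT_down_eq (c : Bool) (x : List Bool) : PT (c :: x) x = 1 / 2 := by
  rw [PT_cons, if_pos rfl, if_neg cons2_ne, if_neg cons2_ne]
  simp

theorem revT_aux (c : Bool) (x : List Bool) : piT x * PT x (c :: x) = piT (c :: x) * PT (c :: x) x := by
  rw [PT_down_eq]
  rcases x with _ | ⟨b, x⟩
  · rw [PT_nil]
    unfold piT
    cases c <;> simp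
  · have h1 : PT (b :: x) (c :: b :: x) = 1 / 4 := by
      rw [PT_cons, if_neg (Ne.symm cons2_ne)]
      cases c <;> simp
    rw [h1]
    unfold piT
    simp only [List.length_cons, pow_succ]
    apply NNReal.eq
    push_cast
    ring

theorem revT (x y : List Bool) : piT x * PT x y = piT y * PT y x := by
  by_cases h1 : ∃ c, y = c :: x
  · obtain ⟨c, rfl⟩ := h1
    exact revT_aux c x
  · by_cases h2 : ∃ c, x = c :: y
    · obtain ⟨c, rfl⟩ := h2
      exact (revT_aux c y).symm
    · have e1 : PT x y = 0 := by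
        by_contra h
        rcases PT_support x y h with h | h
        · exact h1 h
        · exact h2 h
      have e2 : PT y x = 0 := by
        by_contra h
        rcases PT_support y x h with h | h
        · exact h2 h
        · exact h1 h
      rw [e1, e2, mul_zero, mul_zero]

theorem PB_symm (z w : ℤ) : PB z w = PB w z := by
  unfold PB
  have h1 : (w = z) ↔ (z = w) := eq_comm
  have h2 : (w = z + 1) ↔ (z = w - 1) := by omega
  have h3 : (w = z - 1) ↔ (z = w + 1) := by omega
  simp only [h1, h2, h3]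
  ring

theorem PB_support (z w : ℤ) (h : PB z w ≠ 0) : |z - w| ≤ 1 := by
  unfold PB at h
  rw [abs_le]
  by_contra hcon
  apply h
  rw [if_neg (by omega), if_neg (by omega), if_neg (by omega)]
  simp

theorem rever : Reversible PP := by
  refine ⟨fun u => piT u.1, fun u => piT_pos _, fun u v => ?_⟩
  unfold PP
  rw [← mul_assoc, ← mul_assoc, revT, PB_symm]

/-- the graph -/
def GG : SimpleGraph (List Bool × ℤ) :=
  SimpleGraph.fromRel fun u v => (∃ c, v.1 = c :: u.1) ∧ |u.2 - v.2| ≤ 1

theorem GG_adj (u v : List Bool × ℤ) (h : PP u v ≠ 0) : GG.Adj u v := by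
  unfold PP at h
  have h1 := PT_support _ _ (left_ne_zero_of_mul h)
  have h2 := PB_support _ _ (right_ne_zero_of_mul h)
  unfold GG
  rw [SimpleGraph.fromRel_adj]
  constructor
  · intro huv
    rw [huv] at h1
    rcases h1 with ⟨c, hc⟩ | ⟨c, hc⟩
    · exact cons_ne hc
    · exact cons_ne hc
  · rcases h1 with ⟨c, hc⟩ | ⟨c, hc⟩
    · left; exact ⟨⟨c, hc⟩, h2⟩
    · right; exact ⟨⟨c, hc⟩, by rw [abs_sub_comm]; exact h2⟩

theorem reach (n : ℕ) : ∀ u v, 0 < pw PP n u v → GG.Reachable u v := by
  classical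
  induction n with
  | zero =>
    intro u v h
    simp only [pw] at h
    split_ifs at h with h1
    · rw [h1]
    · exact (lt_irrefl _ h).elim
  | succ n ih =>
    intro u v h
    simp only [pw] at h
    have : ∃ z, (PP u z : ℝ≥0∞) * pw PP n z v ≠ 0 := by
      by_contra hcon
      push Not at hcon
      rw [ENNReal.tsum_eq_zero.mpr hcon] at h
      exact lt_irrefl _ h
    obtain ⟨z, hz⟩ := this
    have h1 : PP u z ≠ 0 := by
      have := left_ne_zero_of_mul hz
      simpa using this
    have h2 := right_ne_zero_of_mul hz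
    exact (GG_adj u z h1).reachable.trans (ih z v (pos_iff_ne_zero.mpr h2))

theorem chain : NNChain (List Bool × ℤ) GG PP where
  countable := inferInstance
  infinite := inferInstance
  connected := by
    haveI : Nonempty (List Bool × ℤ) := ⟨([], 0)⟩
    exact SimpleGraph.Connected.mk fun u v => by
      obtain ⟨n, hn⟩ := irr u v
      exact reach n u v hn
  nn := by
    intro x y h
    by_contra hne
    exact h (GG_adj x y hne)
  sum_one := rowP
  finite := by
    intro u
    have hsub : {v | 0 < PP u v} ⊆ ((({u.1.tail, false :: u.1, true :: u.1} : Finset (List Bool)) ×ˢ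
        ({u.2, u.2 + 1, u.2 - 1} : Finset ℤ) : Finset (List Bool × ℤ)) : Set (List Bool × ℤ)) := by
      intro v hv
      simp only [Set.mem_setOf_eq] at hv
      unfold PP at hv
      have h1 := PT_support _ _ (left_ne_zero_of_mul hv.ne')
      have h2 := PB_support _ _ (right_ne_zero_of_mul hv.ne')
      rw [Finset.mem_coe, Finset.mem_product]
      constructor
      · rcases h1 with ⟨c, hc⟩ | ⟨c, hc⟩
        · rw [hc]; cases c <;> simp
        · rw [hc]; simp
      · rw [abs_le] at h2
        simp only [Finset.mem_insert, Finset.mem_singleton]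
        omega
    exact (Finset.finite_toSet _).subset hsub
  irred := irr

end Pool.Agent.R928.DP
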