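import Mathlib

/-! Directed polymers driven by Markov chains: definitions. -/

set_option autoImplicit false
set_option linter.all false

namespace Pool.Agent.R928.DP

open MeasureTheory ProbabilityTheory
open scoped ENNReal NNReal

variable {V : Type}

/-- `Ex P n x F` is the expectation `E_x[F(S_1, …, S_n)]` for the Markov chain with transition matrix `P`. -/
noncomputable def Ex (P : V → V → ℝ≥0) : ℕ → V → (List V → ℝ≥0∞) → ℝ≥0∞
  | 0, _, F => F []
  | n + 1, x, F => ∑' y, (P x y : ℝ≥0∞) * Ex P n y (fun l => F (y :: l))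

open Classical in
/-- The `n`-step transition probabilities. -/
noncomputable def pw (P : V → V → ℝ≥0) : ℕ → V → V → ℝ≥0∞
  | 0, x, y => if x = y then 1 else 0
  | n + 1, x, y => ∑' z, (P x z : ℝ≥0∞) * pw P n z y

/-- `∑_j ω(k + j, s_j)` for a path `(s_1, s_2, …)`. -/
def en (ω : ℕ × V → ℝ) : ℕ → List V → ℝ
  | _, [] => 0
  | k, y :: l => ω (k + 1, y) + en ω (k + 1) l

/-- `E_x[exp(β ∑_{i=1}^n ω(k + i, S_i))]` -/
noncomputable def Zp (P : V → V → ℝ≥0) (β : ℝ) (ω : ℕ × V → ℝ) (n k : ℕ) (x : V) : ℝ≥0∞ :=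
  Ex P n x fun l => ENNReal.ofReal (Real.exp (β * en ω k l))

/-- The law of one environment variable: mean `0`, variance `1`, finite exponential moments. -/
structure EnvLaw (ν : Measure ℝ) : Prop where
  prob : IsProbabilityMeasure ν
  int1 : Integrable (fun x : ℝ => x) ν
  mean : ∫ x, x ∂ν = 0
  int2 : Integrable (fun x : ℝ => x ^ 2) ν
  var : ∫ x, x ^ 2 ∂ν = 1
  expInt : ∀ β : ℝ, 0 < β → Integrable (fun x : ℝ => Real.exp (β * x)) ν

/-- `Λ(β) = log E[exp(β ω)]` -/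
noncomputable def Lam (ν : Measure ℝ) (β : ℝ) : ℝ := Real.log (∫ x, Real.exp (β * x) ∂ν)

/-- The law of the i.i.d. environment `ω(i, x)`. -/
noncomputable def env (V : Type) (ν : Measure ℝ) : Measure (ℕ × V → ℝ) := Measure.infinitePi fun _ => ν

/-- `W_n(x, β) = Z_n(x) exp(-n Λ(β))` with `Z_n(x) = E_x[exp(β ∑_{i=1}^n ω(i, S_i))]`. -/
noncomputable def W (P : V → V → ℝ≥0) (ν : Measure ℝ) (β : ℝ) (n : ℕ) (x : V) (ω : ℕ × V → ℝ) : ℝ≥0∞ :=
  Zp P β ω n 0 x * ENNReal.ofReal (Real.exp (-(n * Lam ν β)))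

/-- `β_2 = sup {β ≥ 0 : sup_n E[W_n(x, β)²] < ∞}` -/
noncomputable def beta2 (P : V → V → ℝ≥0) (ν : Measure ℝ) (x : V) : ℝ≥0∞ :=
  sSup {b | ∃ β : ℝ, 0 ≤ β ∧ b = ENNReal.ofReal β ∧ (⨆ n : ℕ, ∫⁻ ω, W P ν β n x ω ^ 2 ∂(env V ν)) < ∞}

/-- A nearest neighbour Markov chain on a connected graph with countably infinite vertex set, irreducible and
with finitely many possible steps from each vertex. -/
structure NNChain (V : Type) (G : SimpleGraph V) (P : V → V → ℝ≥0) : Prop where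
  countable : Countable V
  infinite : Infinite V
  connected : G.Connected
  nn : ∀ x y, ¬ G.Adj x y → P x y = 0
  sum_one : ∀ x, ∑' y, (P x y : ℝ≥0∞) = 1
  finite : ∀ x, {y | 0 < P x y}.Finite
  irred : ∀ x y, ∃ n, 0 < pw P n x y

/-- Reversibility. -/
def Reversible (P : V → V → ℝ≥0) : Prop :=
  ∃ π : V → ℝ≥0, (∀ x, 0 < π x) ∧ ∀ x y, π x * P x y = π y * P y x

/-- Recurrence (the Green function is infinite). -/
def Recurrent (P : V → V → ℝ≥0) : Prop := ∀ x, ∑' n, pw P n x x = ∞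

end Pool.Agent.R928.DP
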