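import Pool.Agent.R928.DP.Defs

/-! The second moment of the partition function. -/

set_option autoImplicit false
set_option linter.all false

namespace Pool.Agent.R928.DP

open MeasureTheory ProbabilityTheory
open scoped ENNReal NNReal

variable {V : Type}

theorem Ex_mul (P : V → V → ℝ≥0) (n : ℕ) (x : V) (c : ℝ≥0∞) (F : List V → ℝ≥0∞) :
    Ex P n x (fun l => c * F l) = c * Ex P n x F := by
  induction n generalizing x F with
  | zero => rfl
  | succ n ih =>
    simp only [Ex]
    rw [← ENNReal.tsum_mul_left]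
    congr 1
    funext y
    rw [ih]
    ring

theorem Zp_succ (P : V → V → ℝ≥0) (β : ℝ) (ω : ℕ × V → ℝ) (n k : ℕ) (x : V) :
    Zp P β ω (n + 1) k x =
      ∑' y, (P x y : ℝ≥0∞) * (ENNReal.ofReal (Real.exp (β * ω (k + 1, y))) * Zp P β ω n (k + 1) y) := by
  unfold Zp
  simp only [Ex]
  congr 1
  funext y
  rw [← Ex_mul P n y (ENNReal.ofReal (Real.exp (β * ω (k + 1, y))))]
  congr 2
  funext l
  simp only [en]
  rw [mul_add, Real.exp_add, ENNReal.ofReal_mul (Real.exp_pos _).le]

/-- the σ-algebra of a set of coordinates -/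
def mS (S : Set (ℕ × V)) : MeasurableSpace (ℕ × V → ℝ) :=
  ⨆ p ∈ S, MeasurableSpace.comap (fun ω : ℕ × V → ℝ => ω p) inferInstance

theorem mS_le (S : Set (ℕ × V)) : mS S ≤ MeasurableSpace.pi := by
  unfold mS
  refine iSup₂_le fun p _ => ?_
  exact (measurable_pi_apply p).comap_le

theorem meas_coord (S : Set (ℕ × V)) (p : ℕ × V) (hp : p ∈ S) : Measurable[mS S] (fun ω : ℕ × V → ℝ => ω p) := by
  rw [measurable_iff_comap_le]
  exact le_iSup₂ (f := fun (p : ℕ × V) (_ : p ∈ S) => MeasurableSpace.comap (fun ω : ℕ × V → ℝ => ω p) inferInstance) p hp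

theorem meas_exp (S : Set (ℕ × V)) (β : ℝ) (p : ℕ × V) (hp : p ∈ S) :
    Measurable[mS S] (fun ω : ℕ × V → ℝ => ENNReal.ofReal (Real.exp (β * ω p))) := by
  have h : Measurable fun t : ℝ => ENNReal.ofReal (Real.exp (β * t)) := by fun_prop
  exact h.comp (meas_coord S p hp)

theorem meas_Zp [Countable V] (P : V → V → ℝ≥0) (β : ℝ) (S : Set (ℕ × V)) (n : ℕ) :
    ∀ (k : ℕ) (x : V), (∀ i y, k < i → (i, y) ∈ S) → Measurable[mS S] (fun ω : ℕ × V → ℝ => Zp P β ω n k x) := by
  induction n with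
  | zero =>
    intro k x _
    unfold Zp
    simp only [Ex, en]
    exact @measurable_const _ _ _ (mS S) _
  | succ n ih =>
    intro k x hS
    simp only [Zp_succ]
    refine @Measurable.ennreal_tsum _ (mS S) _ _ _ fun y => ?_
    refine Measurable.const_mul ?_ _
    refine Measurable.mul (meas_exp S β _ (hS _ _ (Nat.lt_succ_self k))) ?_
    exact ih (k + 1) y fun i y' hi => hS i y' (by omega)

open Classical in
/-- the second moment recursion -/
noncomputable def DD (P : V → V → ℝ≥0) (a b : ℝ≥0∞) : ℕ → V → V → ℝ≥0∞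
  | 0, _, _ => 1
  | n + 1, x, x' => ∑' y, ∑' y', ((P x y : ℝ≥0∞) * (P x' y' : ℝ≥0∞)) * ((if y = y' then b else a) * DD P a b n y y')

/-- exponential moments -/
noncomputable def mm (ν : Measure ℝ) (β : ℝ) : ℝ≥0∞ := ∫⁻ t, ENNReal.ofReal (Real.exp (β * t)) ∂ν

open Classical in
theorem second [Countable V] (ν : Measure ℝ) [IsProbabilityMeasure ν] (P : V → V → ℝ≥0) (β : ℝ) (n : ℕ) :
    ∀ (k : ℕ) (x x' : V), ∫⁻ ω, Zp P β ω n k x * Zp P β ω n k x' ∂(env V ν) =
      DD P (mm ν β * mm ν β) (mm ν (2 * β)) n x x' := by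
  haveI : IsProbabilityMeasure (env V ν) := by unfold env; infer_instance
  have hind : iIndepFun (fun (p : ℕ × V) (ω : ℕ × V → ℝ) => ω p) (env V ν) := by
    unfold env
    exact iIndepFun_infinitePi (X := fun (_ : ℕ × V) (t : ℝ) => t) (fun _ => measurable_id)
  induction n with
  | zero =>
    intro k x x'
    unfold Zp
    simp only [Ex, en, DD, mul_zero, Real.exp_zero, ENNReal.ofReal_one, mul_one]
    rw [lintegral_const, measure_univ, mul_one]
  | succ n ih =>
    intro k x x'
    have hm : ∀ y, Measurable fun ω : ℕ × V → ℝ => ENNReal.ofReal (Real.exp (β * ω (k + 1, y))) := fun y => by fun_prop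
    have hZ : ∀ y, Measurable fun ω : ℕ × V → ℝ => Zp P β ω n (k + 1) y := fun y =>
      (meas_Zp P β Set.univ n (k + 1) y (fun _ _ _ => trivial)).mono (mS_le _) le_rfl
    have h1 : ∀ ω, Zp P β ω (n + 1) k x * Zp P β ω (n + 1) k x' =
        ∑' y, ∑' y', ((P x y : ℝ≥0∞) * (P x' y' : ℝ≥0∞)) *
          ((ENNReal.ofReal (Real.exp (β * ω (k + 1, y))) * ENNReal.ofReal (Real.exp (β * ω (k + 1, y')))) *
            (Zp P β ω n (k + 1) y * Zp P β ω n (k + 1) y')) := by
      intro ω
      rw [Zp_succ, Zp_succ, ← ENNReal.tsum_mul_right]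
      congr 1
      funext y
      rw [← ENNReal.tsum_mul_left]
      congr 1
      funext y'
      ring
    simp only [h1, DD]
    have hM0 : ∀ y y', Measurable fun ω : ℕ × V → ℝ =>
        ((ENNReal.ofReal (Real.exp (β * ω (k + 1, y))) * ENNReal.ofReal (Real.exp (β * ω (k + 1, y')))) *
            (Zp P β ω n (k + 1) y * Zp P β ω n (k + 1) y')) := fun y y' =>
      ((hm y).mul (hm y')).mul ((hZ y).mul (hZ y'))
    have hM1 : ∀ y y', Measurable fun ω : ℕ × V → ℝ => ((P x y : ℝ≥0∞) * (P x' y' : ℝ≥0∞)) *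
        ((ENNReal.ofReal (Real.exp (β * ω (k + 1, y))) * ENNReal.ofReal (Real.exp (β * ω (k + 1, y')))) *
            (Zp P β ω n (k + 1) y * Zp P β ω n (k + 1) y')) := fun y y' => (hM0 y y').const_mul _
    rw [lintegral_tsum fun y => (Measurable.ennreal_tsum fun y' => hM1 y y').aemeasurable]
    congr 1
    funext y
    rw [lintegral_tsum fun y' => (hM1 y y').aemeasurable]
    congr 1
    funext y'
    rw [lintegral_const_mul _ (hM0 y y')]
    congr 1
    -- independence of the first step and the rest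
    set S : Set (ℕ × V) := {p | p.1 = k + 1} with hS
    set T : Set (ℕ × V) := {p | k + 1 < p.1} with hT
    have hST : Disjoint S T := by
      rw [Set.disjoint_left]
      intro p hp hp'
      simp only [hS, hT, Set.mem_setOf_eq] at hp hp'
      omega
    have hI : Indep (mS S) (mS T) (env V ν) :=
      indep_iSup_of_disjoint (fun p => (measurable_pi_apply p).comap_le) ((iIndepFun_iff_iIndep _ _ _).mp hind) hST
    have hprod := lintegral_mul_eq_lintegral_mul_lintegral_of_independent_measurableSpace (mS_le S) (mS_le T) hI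
      (f := fun ω => ENNReal.ofReal (Real.exp (β * ω (k + 1, y))) * ENNReal.ofReal (Real.exp (β * ω (k + 1, y'))))
      (g := fun ω => Zp P β ω n (k + 1) y * Zp P β ω n (k + 1) y')
      ((meas_exp S β _ rfl).mul (meas_exp S β _ rfl))
      ((meas_Zp P β T n (k + 1) y fun i z hi => hi).mul
        (meas_Zp P β T n (k + 1) y' fun i z hi => hi))
    rw [hprod, ih]
    congr 1
    have hmp : ∀ (p : ℕ × V) (g : ℝ → ℝ≥0∞), Measurable g → ∫⁻ ω, g (ω p) ∂(env V ν) = ∫⁻ t, g t ∂ν := by
      intro p g hg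
      exact (measurePreserving_eval_infinitePi (fun _ : ℕ × V => ν) p).lintegral_comp hg
    split_ifs with hyy
    · subst hyy
      have h2 : ∀ ω : ℕ × V → ℝ, ENNReal.ofReal (Real.exp (β * ω (k + 1, y))) * ENNReal.ofReal (Real.exp (β * ω (k + 1, y))) =
          ENNReal.ofReal (Real.exp (2 * β * ω (k + 1, y))) := by
        intro ω
        rw [← ENNReal.ofReal_mul (Real.exp_pos _).le, ← Real.exp_add]
        congr 2
        ring
      simp only [h2]
      exact hmp (k + 1, y) (fun t => ENNReal.ofReal (Real.exp (2 * β * t))) (by fun_prop)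
    · have hne : ((k + 1, y) : ℕ × V) ≠ (k + 1, y') := by
        intro h
        exact hyy (Prod.ext_iff.mp h).2
      have hi2 := (hind.indepFun hne).comp (φ := fun t : ℝ => ENNReal.ofReal (Real.exp (β * t)))
        (ψ := fun t : ℝ => ENNReal.ofReal (Real.exp (β * t))) (by fun_prop) (by fun_prop)
      have h3 := lintegral_mul_eq_lintegral_mul_lintegral_of_indepFun (hm y) (hm y') hi2
      simp only [Pi.mul_apply] at h3
      rw [h3]
      rw [hmp (k + 1, y) (fun t => ENNReal.ofReal (Real.exp (β * t))) (by fun_prop),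
        hmp (k + 1, y') (fun t => ENNReal.ofReal (Real.exp (β * t))) (by fun_prop)]
      rfl

open Classical in
/-- the normalised recursion -/
noncomputable def MM (P : V → V → ℝ≥0) (lam : ℝ≥0∞) : ℕ → V → V → ℝ≥0∞
  | 0, _, _ => 1
  | n + 1, x, x' => ∑' y, ∑' y', ((P x y : ℝ≥0∞) * (P x' y' : ℝ≥0∞)) *
      ((1 + lam * (if y = y' then 1 else 0)) * MM P lam n y y')

theorem DD_le (P : V → V → ℝ≥0) (a b lam : ℝ≥0∞) (h : b ≤ a * (1 + lam)) (n : ℕ) :
    ∀ x x', DD P a b n x x' ≤ a ^ n * MM P lam n x x' := by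
  classical
  induction n with
  | zero => intro x x'; simp [DD, MM]
  | succ n ih =>
    intro x x'
    simp only [DD, MM]
    rw [← ENNReal.tsum_mul_left]
    refine ENNReal.tsum_le_tsum fun y => ?_
    rw [← ENNReal.tsum_mul_left]
    refine ENNReal.tsum_le_tsum fun y' => ?_
    have h1 : (if y = y' then b else a) ≤ a * (1 + lam * (if y = y' then 1 else 0)) := by
      split_ifs
      · rw [mul_one]; exact h
      · rw [mul_zero, add_zero, mul_one]
    calc ((P x y : ℝ≥0∞) * (P x' y' : ℝ≥0∞)) * ((if y = y' then b else a) * DD P a b n y y')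
        ≤ ((P x y : ℝ≥0∞) * (P x' y' : ℝ≥0∞)) * ((a * (1 + lam * (if y = y' then 1 else 0))) * (a ^ n * MM P lam n y y')) := by
          gcongr
          exact ih y y'
      _ = _ := by rw [pow_succ]; ring

/-- meeting probabilities -/
noncomputable def KK (P : V → V → ℝ≥0) (i : ℕ) (x x' : V) : ℝ≥0∞ := ∑' z, pw P i x z * pw P i x' z

theorem KK_succ (P : V → V → ℝ≥0) (i : ℕ) (x x' : V) :
    KK P (i + 1) x x' = ∑' y, ∑' y', ((P x y : ℝ≥0∞) * (P x' y' : ℝ≥0∞)) * KK P i y y' := by
  unfold KK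
  simp only [pw]
  have h1 : ∀ z, (∑' y, (P x y : ℝ≥0∞) * pw P i y z) * (∑' y', (P x' y' : ℝ≥0∞) * pw P i y' z) =
      ∑' y, ∑' y', ((P x y : ℝ≥0∞) * (P x' y' : ℝ≥0∞)) * (pw P i y z * pw P i y' z) := by
    intro z
    rw [← ENNReal.tsum_mul_right]
    congr 1
    funext y
    rw [← ENNReal.tsum_mul_left]
    congr 1
    funext y'
    ring
  simp only [h1]
  rw [ENNReal.tsum_comm]
  congr 1
  funext y
  rw [ENNReal.tsum_comm]
  congr 1
  funext y'
  rw [ENNReal.tsum_mul_left]

theorem KK_one (P : V → V → ℝ≥0) (x x' : V) : KK P 1 x x' = ∑' y, (P x y : ℝ≥0∞) * (P x' y : ℝ≥0∞) := by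
  classical
  unfold KK
  congr 1
  funext y
  have h : ∀ w : V, pw P 1 w y = (P w y : ℝ≥0∞) := by
    intro w
    simp only [pw]
    rw [tsum_eq_single y]
    · simp
    · intro z hz
      simp [hz]
  rw [h, h]

/-- Khas'minskii's lemma. -/
theorem khas (P : V → V → ℝ≥0) (hP : ∀ x, ∑' y, (P x y : ℝ≥0∞) = 1) (lam κ : ℝ≥0∞) (hκ : ∀ x n, ∑ i ∈ Finset.range n, KK P (i + 1) x x ≤ κ)
    (hl : 2 * lam * κ ≤ 1) (n : ℕ) :
    ∀ x x', MM P lam n x x' ≤ 1 + 2 * lam * ∑ i ∈ Finset.range n, KK P (i + 1) x x' := by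
  classical
  induction n with
  | zero => intro x x'; simp [MM]
  | succ n ih =>
    intro x x'
    have hdiag : ∀ y, MM P lam n y y ≤ 2 := by
      intro y
      calc MM P lam n y y ≤ 1 + 2 * lam * ∑ i ∈ Finset.range n, KK P (i + 1) y y := ih y y
        _ ≤ 1 + 2 * lam * κ := by gcongr; exact hκ y n
        _ ≤ 1 + 1 := by gcongr
        _ = 2 := one_add_one_eq_two
    simp only [MM]
    have h1 : ∀ y y', ((P x y : ℝ≥0∞) * (P x' y' : ℝ≥0∞)) * ((1 + lam * (if y = y' then 1 else 0)) * MM P lam n y y') ≤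
        ((P x y : ℝ≥0∞) * (P x' y' : ℝ≥0∞)) * (1 + 2 * lam * ∑ i ∈ Finset.range n, KK P (i + 1) y y') +
        (2 * lam) * (((P x y : ℝ≥0∞) * (P x' y' : ℝ≥0∞)) * (if y = y' then 1 else 0)) := by
      intro y y'
      by_cases hyy : y = y'
      · subst hyy
        rw [if_pos rfl]
        calc ((P x y : ℝ≥0∞) * (P x' y : ℝ≥0∞)) * ((1 + lam * 1) * MM P lam n y y)
            = ((P x y : ℝ≥0∞) * (P x' y : ℝ≥0∞)) * MM P lam n y y +
              lam * (((P x y : ℝ≥0∞) * (P x' y : ℝ≥0∞)) * MM P lam n y y) := by ring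
          _ ≤ ((P x y : ℝ≥0∞) * (P x' y : ℝ≥0∞)) * (1 + 2 * lam * ∑ i ∈ Finset.range n, KK P (i + 1) y y) +
              lam * (((P x y : ℝ≥0∞) * (P x' y : ℝ≥0∞)) * 2) := by
              gcongr
              · exact ih y y
              · exact hdiag y
          _ = _ := by ring
      · rw [if_neg hyy]
        simp only [mul_zero, add_zero, one_mul]
        gcongr
        exact ih y y'
    calc ∑' y, ∑' y', ((P x y : ℝ≥0∞) * (P x' y' : ℝ≥0∞)) * ((1 + lam * (if y = y' then 1 else 0)) * MM P lam n y y')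
        ≤ ∑' y, ∑' y', (((P x y : ℝ≥0∞) * (P x' y' : ℝ≥0∞)) * (1 + 2 * lam * ∑ i ∈ Finset.range n, KK P (i + 1) y y') +
        (2 * lam) * (((P x y : ℝ≥0∞) * (P x' y' : ℝ≥0∞)) * (if y = y' then 1 else 0))) :=
          ENNReal.tsum_le_tsum fun y => ENNReal.tsum_le_tsum fun y' => h1 y y'
      _ = (1 + 2 * lam * ∑ i ∈ Finset.range n, KK P (i + 2) x x') + 2 * lam * KK P 1 x x' := by
          simp only [ENNReal.tsum_add]
          congr 1
          · simp only [mul_add, mul_one, ENNReal.tsum_add]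
            congr 1
            · simp only [ENNReal.tsum_mul_left, hP, mul_one]
            · have h2 : ∀ y y', ((P x y : ℝ≥0∞) * (P x' y' : ℝ≥0∞)) * (2 * lam * ∑ i ∈ Finset.range n, KK P (i + 1) y y') =
                  2 * lam * ∑ i ∈ Finset.range n, ((P x y : ℝ≥0∞) * (P x' y' : ℝ≥0∞)) * KK P (i + 1) y y' := by
                intro y y'
                rw [Finset.mul_sum, Finset.mul_sum, Finset.mul_sum]
                refine Finset.sum_congr rfl fun i _ => ?_
                ring
              simp only [h2, ENNReal.tsum_mul_left]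
              congr 1
              have h3 : ∀ y, ∑' y', ∑ i ∈ Finset.range n, ((P x y : ℝ≥0∞) * (P x' y' : ℝ≥0∞)) * KK P (i + 1) y y' =
                  ∑ i ∈ Finset.range n, ∑' y', ((P x y : ℝ≥0∞) * (P x' y' : ℝ≥0∞)) * KK P (i + 1) y y' := by
                intro y
                exact Summable.tsum_finsetSum fun _ _ => ENNReal.summable
              simp only [h3]
              rw [Summable.tsum_finsetSum fun _ _ => ENNReal.summable]
              refine Finset.sum_congr rfl fun i _ => ?_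
              rw [KK_succ P (i + 1)]
          · simp only [ENNReal.tsum_mul_left]
            congr 1
            rw [KK_one]
            congr 1
            funext y
            rw [tsum_eq_single y]
            · rw [if_pos rfl, mul_one]
            · intro y' hy'
              rw [if_neg (Ne.symm hy'), mul_zero]
      _ = 1 + 2 * lam * ∑ i ∈ Finset.range (n + 1), KK P (i + 1) x x' := by
          rw [Finset.sum_range_succ']
          ring

theorem MM_diag (P : V → V → ℝ≥0) (hP : ∀ x, ∑' y, (P x y : ℝ≥0∞) = 1) (lam κ : ℝ≥0∞) (hκ : ∀ x n, ∑ i ∈ Finset.range n, KK P (i + 1) x x ≤ κ)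
    (hl : 2 * lam * κ ≤ 1) (n : ℕ) (x : V) : MM P lam n x x ≤ 2 := by
  calc MM P lam n x x ≤ 1 + 2 * lam * ∑ i ∈ Finset.range n, KK P (i + 1) x x := khas P hP lam κ hκ hl n x x
    _ ≤ 1 + 2 * lam * κ := by gcongr; exact hκ x n
    _ ≤ 1 + 1 := by gcongr
    _ = 2 := one_add_one_eq_two

end Pool.Agent.R928.DP
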