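import Mathlib

/-! The biased walk on the binary tree: real estimates. -/

set_option autoImplicit false
set_option linter.all false

namespace Pool.Agent.R928.DP

/-- one step of the walk on the binary tree (vertices are words, the parent is the tail) -/
noncomputable def opT (f : List Bool → ℝ) : List Bool → ℝ
  | [] => 1 / 2 * f [false] + 1 / 2 * f [true]
  | b :: x => 1 / 2 * f x + 1 / 4 * f (false :: b :: x) + 1 / 4 * f (true :: b :: x)

theorem opT_nil (f : List Bool → ℝ) : opT f [] = 1 / 2 * f [false] + 1 / 2 * f [true] := rfl

theorem opT_cons (f : List Bool → ℝ) (b : Bool) (x : List Bool) :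
    opT f (b :: x) = 1 / 2 * f x + 1 / 4 * f (false :: b :: x) + 1 / 4 * f (true :: b :: x) := rfl

theorem opT_nonneg {f : List Bool → ℝ} (hf : ∀ x, 0 ≤ f x) (x : List Bool) : 0 ≤ opT f x := by
  rcases x with _ | ⟨b, x⟩
  · rw [opT_nil]; have := hf [false]; have := hf [true]; positivity
  · rw [opT_cons]; have := hf x; have := hf (false :: b :: x); have := hf (true :: b :: x); positivity

theorem opTn_nonneg {f : List Bool → ℝ} (hf : ∀ x, 0 ≤ f x) (n : ℕ) : ∀ x, 0 ≤ opT^[n] f x := by
  induction n with
  | zero => exact hf
  | succ n ih =>
    intro x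
    rw [Function.iterate_succ_apply']
    exact opT_nonneg ih x

/-! ### Visits to a ray -/

/-- distance to the ray with bits `β` -/
def ds (β : ℕ → Bool) : List Bool → ℕ
  | [] => 0
  | b :: y => if ds β y = 0 ∧ b = β y.length then 0 else ds β y + 1

theorem ds_nil (β : ℕ → Bool) : ds β [] = 0 := rfl

theorem ds_cons (β : ℕ → Bool) (b : Bool) (y : List Bool) :
    ds β (b :: y) = if ds β y = 0 ∧ b = β y.length then 0 else ds β y + 1 := rfl

/-- indicator of the ray -/
noncomputable def ind (β : ℕ → Bool) (y : List Bool) : ℝ := if ds β y = 0 then 1 else 0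

theorem ind_nonneg (β : ℕ → Bool) (y : List Bool) : 0 ≤ ind β y := by
  unfold ind; split_ifs <;> norm_num

/-- expected number of visits to the ray before time `n` -/
noncomputable def VV (β : ℕ → Bool) (n : ℕ) (y : List Bool) : ℝ := ∑ k ∈ Finset.range n, opT^[k] (ind β) y

theorem opT_add (f g : List Bool → ℝ) (x : List Bool) : opT (fun y => f y + g y) x = opT f x + opT g x := by
  rcases x with _ | ⟨b, x⟩
  · simp only [opT_nil]; ring
  · simp only [opT_cons]; ring

theorem opT_sum (n : ℕ) (f : ℕ → List Bool → ℝ) (x : List Bool) :
    opT (fun y => ∑ k ∈ Finset.range n, f k y) x = ∑ k ∈ Finset.range n, opT (f k) x := by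
  induction n with
  | zero =>
    simp only [Finset.range_zero, Finset.sum_empty]
    rcases x with _ | ⟨b, x⟩
    · simp [opT_nil]
    · simp [opT_cons]
  | succ n ih =>
    simp only [Finset.sum_range_succ]
    rw [opT_add, ih]

theorem VV_succ (β : ℕ → Bool) (n : ℕ) (y : List Bool) : VV β (n + 1) y = ind β y + opT (VV β n) y := by
  unfold VV
  rw [Finset.sum_range_succ']
  have h : ∀ k, opT^[k + 1] (ind β) y = opT (opT^[k] (ind β)) y := by
    intro k
    rw [Function.iterate_succ_apply']
  simp only [h]
  rw [opT_sum n (fun k => opT^[k] (ind β)) y]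
  simp only [Function.iterate_zero, id_eq]
  ring

noncomputable def sq (n : ℕ) (d : ℝ) : ℝ := Real.sqrt (d ^ 2 + n)

theorem sq_conc (n : ℕ) (d : ℝ) : sq n (d - 1) + sq n (d + 1) ≤ 2 * sq (n + 1) d := by
  unfold sq
  have h1 : 0 ≤ (d - 1) ^ 2 + (n : ℝ) := by positivity
  have h2 : 0 ≤ (d + 1) ^ 2 + (n : ℝ) := by positivity
  have h3 := Real.sq_sqrt h1
  have h4 := Real.sq_sqrt h2
  set u := Real.sqrt ((d - 1) ^ 2 + n)
  set v := Real.sqrt ((d + 1) ^ 2 + n)
  have hu : 0 ≤ u := Real.sqrt_nonneg _
  have hv : 0 ≤ v := Real.sqrt_nonneg _
  have h5 : (u + v) / 2 ≤ Real.sqrt (d ^ 2 + ((n + 1 : ℕ) : ℝ)) := by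
    apply Real.le_sqrt_of_sq_le
    push_cast
    nlinarith [sq_nonneg (u - v)]
  linarith

theorem sq_zero_le (n : ℕ) : sq n 0 ≤ sq (n + 1) 0 := by
  unfold sq
  apply Real.sqrt_le_sqrt
  push_cast
  linarith

theorem sq_one (n : ℕ) : sq n 1 = sq (n + 1) 0 := by
  unfold sq
  congr 1
  push_cast
  ring

theorem VV_bound (β : ℕ → Bool) (n : ℕ) : ∀ y, VV β n y + 4 * ds β y ≤ 4 * sq n (ds β y) := by
  induction n with
  | zero =>
    intro y
    unfold VV sq
    simp
  | succ n ih =>
    intro y
    rw [VV_succ]
    have e1 := sq_zero_le n
    have e2 := sq_one n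
    rcases y with _ | ⟨b, x⟩
    · rw [opT_nil, ds_nil]
      have i1 := ih [β 0]
      have i2 := ih [!(β 0)]
      have d1 : ds β [β 0] = 0 := by simp [ds_cons, ds_nil]
      have d2 : ds β [!(β 0)] = 1 := by simp [ds_cons, ds_nil]
      rw [d1] at i1
      rw [d2] at i2
      have h0 : ind β [] = 1 := by simp [ind, ds_nil]
      rw [h0]
      push_cast at i1 i2 ⊢
      have hsum : VV β n [false] + VV β n [true] = VV β n [β 0] + VV β n [!(β 0)] := by
        cases β 0 <;> simp [add_comm]
      linarith
    · rw [opT_cons]
      by_cases hd : ds β (b :: x) = 0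
      · have hx : ds β x = 0 := by
          by_contra hne
          rw [ds_cons, if_neg (fun h => hne h.1)] at hd
          omega
        have i0 := ih x
        have i1 := ih (β (b :: x).length :: b :: x)
        have i2 := ih ((!(β (b :: x).length)) :: b :: x)
        have d1 : ds β (β (b :: x).length :: b :: x) = 0 := by rw [ds_cons]; simp [hd]
        have d2 : ds β ((!(β (b :: x).length)) :: b :: x) = 1 := by rw [ds_cons]; simp [hd]
        rw [d1] at i1
        rw [d2] at i2
        rw [hx] at i0
        have h0 : ind β (b :: x) = 1 := by simp [ind, hd]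
        rw [h0, hd]
        push_cast at i0 i1 i2 ⊢
        have hsum : VV β n (false :: b :: x) + VV β n (true :: b :: x) =
            VV β n (β (b :: x).length :: b :: x) + VV β n ((!(β (b :: x).length)) :: b :: x) := by
          cases β (b :: x).length <;> simp [add_comm]
        linarith
      · obtain ⟨D, hD⟩ := Nat.exists_eq_succ_of_ne_zero hd
        have hx : ds β x = D := by
          rw [ds_cons] at hD
          split_ifs at hD
          omega
        have i0 := ih x
        have i1 := ih (false :: b :: x)
        have i2 := ih (true :: b :: x)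
        have d1 : ds β (false :: b :: x) = D + 2 := by rw [ds_cons, if_neg (fun h => hd h.1), hD]
        have d2 : ds β (true :: b :: x) = D + 2 := by rw [ds_cons, if_neg (fun h => hd h.1), hD]
        rw [d1] at i1
        rw [d2] at i2
        rw [hx] at i0
        have h0 : ind β (b :: x) = 0 := by simp [ind, hd]
        rw [h0, hD]
        have e3 := sq_conc n ((D : ℝ) + 1)
        have e4 : (D : ℝ) + 1 - 1 = D := by ring
        have e5 : (D : ℝ) + 1 + 1 = D + 2 := by ring
        rw [e4, e5] at e3
        push_cast at i0 i1 i2 ⊢
        linarith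

/-! ### Monotonicity -/

/-- length of the common prefix -/
def cp : List Bool → List Bool → ℕ
  | a :: x, b :: y => if a = b then cp x y + 1 else 0
  | [], _ => 0
  | _ :: _, [] => 0

theorem cp_nil (y : List Bool) : cp [] y = 0 := by cases y <;> rfl

theorem cp_le_left (x : List Bool) : ∀ y, cp x y ≤ x.length := by
  induction x with
  | nil => intro y; rw [cp_nil]; exact Nat.zero_le _
  | cons a x ih =>
    intro y
    rcases y with _ | ⟨b, y⟩
    · simp [cp]
    · unfold cp
      split_ifs
      · have := ih y; simp; exact this
      · exact Nat.zero_le _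

theorem cp_append (c : Bool) (x : List Bool) : ∀ y, cp (x ++ [c]) y =
    if cp x y = x.length ∧ y[x.length]? = some c then x.length + 1 else cp x y := by
  induction x with
  | nil =>
    intro y
    rcases y with _ | ⟨b, y⟩
    · simp [cp]
    · simp [cp, cp_nil, eq_comm]
  | cons a x ih =>
    intro y
    rcases y with _ | ⟨b, y⟩
    · simp [cp]
    · rw [List.cons_append]
      unfold cp
      by_cases hab : a = b
      · rw [if_pos hab, if_pos hab, ih y]
        simp only [List.length_cons, List.getElem?_cons_succ, Nat.add_right_cancel_iff]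
        split_ifs <;> rfl
      · rw [if_neg hab, if_neg hab]
        simp

theorem cp_self (x : List Bool) : cp x x = x.length := by
  induction x with
  | nil => rfl
  | cons a x ih => simp [cp, ih]

theorem cp_eq {x : List Bool} : ∀ {y : List Bool}, x.length = y.length → cp x y = x.length → x = y := by
  induction x with
  | nil =>
    intro y h _
    exact (List.length_eq_zero_iff.mp h.symm).symm
  | cons a x ih =>
    intro y h hc
    rcases y with _ | ⟨b, y⟩
    · simp at h
    · unfold cp at hc
      split_ifs at hc with hab
      rw [hab, ih (by simpa using h) (by simpa using hc)]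

/-- level of the last common ancestor -/
def mt (x y : List Bool) : ℕ := cp x.reverse y.reverse

theorem mt_le (x y : List Bool) : mt x y ≤ x.length := by
  have := cp_le_left x.reverse y.reverse
  rwa [List.length_reverse] at this

theorem mt_cons (c : Bool) (x y : List Bool) : mt (c :: x) y =
    if mt x y = x.length ∧ y.reverse[x.length]? = some c then x.length + 1 else mt x y := by
  unfold mt
  rw [List.reverse_cons, cp_append, List.length_reverse]

theorem mt_parent (b : Bool) (x y : List Bool) : mt x y = min (mt (b :: x) y) x.length := by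
  rw [mt_cons]
  have := mt_le x y
  split_ifs with h
  · omega
  · omega

theorem mt_children (x y : List Bool) : ∃ c : Bool,
    mt (c :: x) y = mt x y + (if mt x y = x.length ∧ x.length < y.length then 1 else 0) ∧ mt ((!c) :: x) y = mt x y := by
  by_cases h : mt x y = x.length ∧ x.length < y.length
  · have hlt : x.length < y.reverse.length := by rw [List.length_reverse]; exact h.2
    refine ⟨y.reverse[x.length], ?_, ?_⟩
    · rw [mt_cons, if_pos h, if_pos ⟨h.1, by rw [List.getElem?_eq_getElem hlt]⟩, h.1]
    · rw [mt_cons, if_neg]
      rintro ⟨_, h2⟩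
      rw [List.getElem?_eq_getElem hlt] at h2
      simp at h2
  · rw [if_neg h]
    have : ∀ c, mt (c :: x) y = mt x y := by
      intro c
      rw [mt_cons, if_neg]
      rintro ⟨h1, h2⟩
      apply h
      refine ⟨h1, ?_⟩
      have := (List.getElem?_eq_some_iff.mp h2).1
      rwa [List.length_reverse] at this
    exact ⟨false, by rw [this]; rfl, by rw [this]⟩

/-- indicator of a vertex -/
noncomputable def dT (y : List Bool) : List Bool → ℝ := fun x => if x = y then 1 else 0

theorem dT_nonneg (y x : List Bool) : 0 ≤ dT y x := by unfold dT; split_ifs <;> norm_num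

theorem sum_children (f : List Bool → ℝ) (c : Bool) (x : List Bool) :
    f (false :: x) + f (true :: x) = f (c :: x) + f ((!c) :: x) := by
  cases c <;> simp [add_comm]

theorem mono (n : ℕ) : ∀ (x x' y y' : List Bool), x.length = x'.length → y.length = y'.length → mt x y ≤ mt x' y' →
    opT^[n] (dT y) x ≤ opT^[n] (dT y') x' := by
  induction n with
  | zero =>
    intro x x' y y' hx hy hm
    simp only [Function.iterate_zero, id_eq]
    unfold dT
    by_cases hxy : x = y
    · subst hxy
      have h1 : mt x x = x.length := by unfold mt; rw [cp_self, List.length_reverse]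
      have h2 : mt x' y' = x'.length := le_antisymm (mt_le _ _) (by omega)
      have h3 : x' = y' := by
        have := cp_eq (x := x'.reverse) (y := y'.reverse) (by rw [List.length_reverse, List.length_reverse]; omega)
          (by rw [List.length_reverse]; exact h2)
        exact List.reverse_injective this
      rw [if_pos rfl, if_pos h3]
    · rw [if_neg hxy]
      split_ifs <;> norm_num
  | succ n ih =>
    intro x x' y y' hx hy hm
    rw [Function.iterate_succ_apply', Function.iterate_succ_apply']
    have hchild : opT^[n] (dT y) (false :: x) + opT^[n] (dT y) (true :: x) ≤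
        opT^[n] (dT y') (false :: x') + opT^[n] (dT y') (true :: x') := by
      obtain ⟨c, hc1, hc2⟩ := mt_children x y
      obtain ⟨c', hc1', hc2'⟩ := mt_children x' y'
      rw [sum_children _ c, sum_children _ c']
      have h1 := ih (c :: x) (c' :: x') y y' (by simp [hx]) hy (by
        rw [hc1, hc1']
        have := mt_le x' y'
        have := mt_le x y
        split_ifs <;> omega)
      have h2 := ih ((!c) :: x) ((!c') :: x') y y' (by simp [hx]) hy (by rw [hc2, hc2']; exact hm)
      linarith
    rcases x with _ | ⟨b, x⟩ <;> rcases x' with _ | ⟨b', x'⟩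
    · rw [opT_nil, opT_nil]
      linarith
    · simp at hx
    · simp at hx
    · rw [opT_cons, opT_cons]
      have h3 := ih x x' y y' (by simpa using hx) hy (by
        rw [mt_parent b x y, mt_parent b' x' y']
        have : x.length = x'.length := by simpa using hx
        omega)
      linarith

/-- the ray with bits `β` -/
def ry (β : ℕ → Bool) : ℕ → List Bool
  | 0 => []
  | j + 1 => β j :: ry β j

theorem ry_length (β : ℕ → Bool) (j : ℕ) : (ry β j).length = j := by
  induction j with
  | zero => rfl
  | succ j ih => simp [ry, ih]

theorem ry_ds (β : ℕ → Bool) (j : ℕ) : ds β (ry β j) = 0 := by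
  induction j with
  | zero => rfl
  | succ j ih =>
    unfold ry
    rw [ds_cons, if_pos ⟨ih, by rw [ry_length]⟩]

theorem ry_rev (β : ℕ → Bool) (j i : ℕ) (h : i < j) : (ry β j).reverse[i]? = some (β i) := by
  induction j with
  | zero => omega
  | succ j ih =>
    unfold ry
    rw [List.reverse_cons]
    by_cases hi : i < j
    · rw [List.getElem?_append_left (by rw [List.length_reverse, ry_length]; exact hi)]
      exact ih hi
    · have : i = j := by omega
      subst this
      rw [List.getElem?_append_right (by rw [List.length_reverse, ry_length])]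
      simp [ry_length]

theorem ry_mt (β : ℕ → Bool) (j h : ℕ) : mt (ry β h) (ry β j) = min h j := by
  induction h with
  | zero => unfold mt ry; simp [cp_nil]
  | succ h ih =>
    have : ry β (h + 1) = β h :: ry β h := rfl
    rw [this, mt_cons, ih, ry_length]
    by_cases hj : h < j
    · rw [if_pos ⟨by omega, ry_rev β j h hj⟩]
      omega
    · rw [if_neg]
      · omega
      · rintro ⟨h1, h2⟩
        have := (List.getElem?_eq_some_iff.mp h2).1
        rw [List.length_reverse, ry_length] at this
        omega

theorem ry_self (x : List Bool) : ∀ β : ℕ → Bool, (∀ i, i < x.length → x.reverse[i]? = some (β i)) → ry β x.length = x := by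
  induction x with
  | nil => intro β _; rfl
  | cons b x ih =>
    intro β h
    have h1 : ry β (b :: x).length = β x.length :: ry β x.length := rfl
    rw [h1]
    have h2 := h x.length (by simp)
    rw [List.reverse_cons, List.getElem?_append_right (by simp)] at h2
    simp at h2
    rw [← h2, ih β]
    intro i hi
    have h3 := h i (by simp; omega)
    rwa [List.reverse_cons, List.getElem?_append_left (by rw [List.length_reverse]; exact hi)] at h3

/-- the bits of a ray through `x` -/
def bits (x : List Bool) (i : ℕ) : Bool := (x.reverse[i]?).getD false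

theorem ry_bits (x : List Bool) : ry (bits x) x.length = x := by
  apply ry_self
  intro i hi
  unfold bits
  have : i < x.reverse.length := by rw [List.length_reverse]; exact hi
  rw [List.getElem?_eq_getElem this]
  rfl

theorem mono_ray (n : ℕ) (x y : List Bool) : opT^[n] (dT y) x ≤ opT^[n] (dT (ry (bits x) y.length)) x := by
  apply mono n x x y _ rfl (by rw [ry_length])
  have h1 := ry_mt (bits x) y.length x.length
  rw [ry_bits] at h1
  rw [h1]
  have h2 := mt_le x y
  have h3 : mt x y ≤ y.length := by
    have : ∀ (a b : List Bool), cp a b ≤ b.length := by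
      intro a
      induction a with
      | nil => intro b; rw [cp_nil]; exact Nat.zero_le _
      | cons c a ih =>
        intro b
        rcases b with _ | ⟨d, b⟩
        · simp [cp]
        · unfold cp
          split_ifs
          · have := ih b; simp; exact this
          · exact Nat.zero_le _
    have := this x.reverse y.reverse
    rwa [List.length_reverse] at this
  omega

theorem bits_ds (x : List Bool) : ds (bits x) x = 0 := by
  have := ry_ds (bits x) x.length
  rwa [ry_bits] at this

end Pool.Agent.R928.DP
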